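import Mathlib

set_option autoImplicit false

namespace Pool.Agent.Results.MP_7e9602_ag.ValueSetDisproof


open MvPolynomial

/-- Geometric points of projective `N`-space over `K`: lines in `K̄^(N+1)`. -/
abbrev GeomPt (K : Type) [Field K] (N : ℕ) : Type :=
  Projectivization (AlgebraicClosure K) (Fin (N + 1) → AlgebraicClosure K)

/-- The vector of values of a tuple of polynomials over `K` at homogeneous coordinates of `p`. -/
noncomputable def valueAt {K : Type} [Field K] {N : ℕ}
    (G : Fin (N + 1) → MvPolynomial (Fin (N + 1)) K) (p : GeomPt K N) :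
    Fin (N + 1) → AlgebraicClosure K :=
  fun i => aeval p.rep (G i)

/-- A vector over `K` viewed as a vector over the algebraic closure of `K`. -/
noncomputable def liftVec {K : Type} [Field K] {N : ℕ} (v : Fin (N + 1) → K) :
    Fin (N + 1) → AlgebraicClosure K :=
  fun i => algebraMap K (AlgebraicClosure K) (v i)

/-- `p` is a `K`-rational point: it has homogeneous coordinates in `K`. -/
def IsRationalPt {K : Type} [Field K] {N : ℕ} (p : GeomPt K N) : Prop :=
  ∃ v : Fin (N + 1) → K, v ≠ 0 ∧ liftVec v ∈ p.submodule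

/-- `Z` is Zariski closed and defined over `K`: the common zero locus of a set of homogeneous
polynomials with coefficients in `K`. -/
def IsClosedOver {K : Type} [Field K] {N : ℕ} (Z : Set (GeomPt K N)) : Prop :=
  ∃ S : Set (MvPolynomial (Fin (N + 1)) K),
    (∀ P ∈ S, ∃ e : ℕ, P.IsHomogeneous e) ∧ Z = {p | ∀ P ∈ S, aeval p.rep P = 0}

/-- `Z` is geometrically irreducible. -/
def IsGeomIrreducible {K : Type} [Field K] {N : ℕ} (Z : Set (GeomPt K N)) : Prop :=
  Z.Nonempty ∧
  ∀ P Q : MvPolynomial (Fin (N + 1)) (AlgebraicClosure K),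
    (∃ a : ℕ, P.IsHomogeneous a) → (∃ b : ℕ, Q.IsHomogeneous b) →
    (∀ p ∈ Z, eval p.rep P = 0 ∨ eval p.rep Q = 0) →
    (∀ p ∈ Z, eval p.rep P = 0) ∨ (∀ p ∈ Z, eval p.rep Q = 0)

/-- `f` is an endomorphism of `ℙ^N` over `K` given by forms of degree `d` without a common
zero, so that the pullback of `O(1)` is `O(d)`. -/
def IsEndomorphismOfDegree {K : Type} [Field K] {N : ℕ} (d : ℕ) (f : GeomPt K N → GeomPt K N) :
    Prop :=
  ∃ F : Fin (N + 1) → MvPolynomial (Fin (N + 1)) K,
    (∀ i, (F i).IsHomogeneous d) ∧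
    (∀ p : GeomPt K N, valueAt F p ≠ 0 ∧ valueAt F p ∈ (f p).submodule)

/-- `g` restricted to `Z` is a morphism `Z → ℙ^N` of varieties over `K`: around every geometric
point of `Z` it is given by forms of one degree with coefficients in `K`. -/
def IsMorphismOn {K : Type} [Field K] {N : ℕ} (Z : Set (GeomPt K N))
    (g : GeomPt K N → GeomPt K N) : Prop :=
  ∀ p ∈ Z, ∃ (e : ℕ) (G : Fin (N + 1) → MvPolynomial (Fin (N + 1)) K),
    (∀ i, (G i).IsHomogeneous e) ∧ valueAt G p ≠ 0 ∧
    ∀ q ∈ Z, valueAt G q ≠ 0 → valueAt G q ∈ (g q).submodule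

/-- The return set `{n : f^n(α) ∈ g(Z(K))}`. -/
def returnSet {K : Type} [Field K] {N : ℕ} (f g : GeomPt K N → GeomPt K N)
    (Z : Set (GeomPt K N)) (α : GeomPt K N) : Set ℕ :=
  {n | ∃ z ∈ Z, IsRationalPt z ∧ f^[n] α = g z}

/-- finite unions of arithmetic progressions, common difference `0` allowed. -/
def IsFiniteUnionOfAPs (S : Set ℕ) : Prop :=
  ∃ T : Finset (ℕ × ℕ), S = ⋃ t ∈ T, {n : ℕ | ∃ k : ℕ, n = t.1 + k * t.2}


/-! ### Dynamics of x^2 - 2 on the real interval [-2, 2] -/


/-- the orbit of 6/5 under x^2-2 -/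
def w : ℕ → ℚ
  | 0 => 6 / 5
  | n + 1 => w n ^ 2 - 2

lemma w_bound (n : ℕ) : |w n| ≤ 2 := by
  induction n with
  | zero => simp only [w]; norm_num [abs_le]
  | succ n ih =>
    simp only [w]
    rw [abs_le] at *
    constructor
    · nlinarith [sq_nonneg (w n)]
    · nlinarith

lemma w_den (n : ℕ) : ∃ a : ℤ, w n * 5 ^ (2 ^ n) = a ∧ ¬ (5 : ℤ) ∣ a := by
  induction n with
  | zero => exact ⟨6, by simp only [w]; norm_num, by norm_num⟩
  | succ n ih =>
    obtain ⟨a, ha, h5⟩ := ih
    refine ⟨a ^ 2 - 2 * 5 ^ (2 ^ (n + 1)), ?_, ?_⟩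
    · simp only [w]
      push_cast
      rw [← ha]
      have : (5 : ℚ) ^ (2 ^ (n + 1)) = (5 ^ (2 ^ n)) ^ 2 := by
        rw [← pow_mul, pow_succ]
      rw [this]; ring
    · intro h
      have h2 : (5 : ℤ) ∣ 2 * 5 ^ (2 ^ (n + 1)) := by
        apply Dvd.dvd.mul_left
        exact dvd_pow_self _ (by positivity)
      have h3 : (5 : ℤ) ∣ a ^ 2 := by
        have := dvd_add h h2
        simpa using this
      have hp : Prime (5 : ℤ) := by
        rw [show (5 : ℤ) = ((5 : ℕ) : ℤ) by norm_num]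
        exact Nat.prime_iff_prime_int.mp (by norm_num)
      exact h5 (hp.dvd_of_dvd_pow h3)

lemma w_inj_lt {m n : ℕ} (h : m < n) : w m ≠ w n := by
  intro heq
  obtain ⟨a, ha, -⟩ := w_den m
  obtain ⟨b, hb, h5⟩ := w_den n
  apply h5
  have hlt : 2 ^ m < 2 ^ n := Nat.pow_lt_pow_right (by norm_num) h
  obtain ⟨k, hk⟩ := Nat.exists_eq_add_of_lt hlt
  have : (b : ℚ) = (a * 5 ^ k * 5 : ℤ) := by
    rw [← hb, ← heq, hk]
    push_cast
    rw [← ha]
    ring
  have h' : b = a * 5 ^ k * 5 := by exact_mod_cast this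
  rw [h']
  exact Dvd.intro_left _ rfl

noncomputable def θ (n : ℕ) : ℝ := Real.arccos ((w n : ℝ) / 2)

lemma w_real_bound (n : ℕ) : -1 ≤ (w n : ℝ) / 2 ∧ (w n : ℝ) / 2 ≤ 1 := by
  have h := w_bound n
  rw [abs_le] at h
  have h1 : (-2 : ℝ) ≤ (w n : ℝ) := by exact_mod_cast h.1
  have h2 : (w n : ℝ) ≤ 2 := by exact_mod_cast h.2
  constructor <;> linarith

lemma cos_θ (n : ℕ) : Real.cos (θ n) = (w n : ℝ) / 2 :=
  Real.cos_arccos (w_real_bound n).1 (w_real_bound n).2

lemma θ_nonneg (n : ℕ) : 0 ≤ θ n := Real.arccos_nonneg _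
lemma θ_le (n : ℕ) : θ n ≤ Real.pi := Real.arccos_le_pi _

lemma θ_succ_of_nonneg (n : ℕ) (h : 0 ≤ w n) : θ (n + 1) = 2 * θ n := by
  have hle : θ n ≤ Real.pi / 2 := by
    unfold θ
    rw [Real.arccos_le_pi_div_two]
    have : (0 : ℝ) ≤ (w n : ℝ) := by exact_mod_cast h
    linarith
  have h0 := θ_nonneg n
  have hc : Real.cos (θ (n + 1)) = Real.cos (2 * θ n) := by
    rw [Real.cos_two_mul, cos_θ, cos_θ]
    simp only [w]
    push_cast
    ring
  exact Real.injOn_cos ⟨θ_nonneg _, θ_le _⟩ ⟨by linarith, by linarith⟩ hc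

lemma θ_succ_of_neg (n : ℕ) (h : w n < 0) : θ (n + 1) = 2 * Real.pi - 2 * θ n := by
  have hle : Real.pi / 2 < θ n := by
    unfold θ
    rw [← not_le, Real.arccos_le_pi_div_two, not_le]
    have : (w n : ℝ) < 0 := by exact_mod_cast h
    linarith
  have h0 := θ_le n
  have hc : Real.cos (θ (n + 1)) = Real.cos (2 * Real.pi - 2 * θ n) := by
    rw [Real.cos_two_pi_sub, Real.cos_two_mul, cos_θ, cos_θ]
    simp only [w]
    push_cast
    ring
  exact Real.injOn_cos ⟨θ_nonneg _, θ_le _⟩ ⟨by linarith, by linarith⟩ hc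

lemma θ_diff (m m' : ℕ) (h : ∀ k, 0 ≤ w (m + k) ↔ 0 ≤ w (m' + k)) (k : ℕ) :
    |θ (m + k) - θ (m' + k)| = 2 ^ k * |θ m - θ m'| := by
  induction k with
  | zero => simp
  | succ k ih =>
    have hk := h k
    by_cases hs : 0 ≤ w (m + k)
    · have hs' := hk.mp hs
      rw [← add_assoc, ← add_assoc, θ_succ_of_nonneg _ hs, θ_succ_of_nonneg _ hs', ← mul_sub,
        abs_mul, ih, pow_succ]
      rw [abs_of_pos (by norm_num : (0 : ℝ) < 2)]
      ring
    · have hs' : ¬ 0 ≤ w (m' + k) := fun h' => hs (hk.mpr h')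
      push Not at hs hs'
      rw [← add_assoc, ← add_assoc, θ_succ_of_neg _ hs, θ_succ_of_neg _ hs']
      rw [show 2 * Real.pi - 2 * θ (m + k) - (2 * Real.pi - 2 * θ (m' + k))
        = - (2 * (θ (m + k) - θ (m' + k))) by ring, abs_neg, abs_mul, ih, pow_succ]
      rw [abs_of_pos (by norm_num : (0 : ℝ) < 2)]
      ring

lemma w_eq_of_itinerary (m m' : ℕ) (h : ∀ k, 0 ≤ w (m + k) ↔ 0 ≤ w (m' + k)) :
    w m = w m' := by
  have hθ : θ m = θ m' := by
    by_contra hne
    have hpos : 0 < |θ m - θ m'| := abs_pos.mpr (sub_ne_zero.mpr hne)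
    obtain ⟨k, hk⟩ := pow_unbounded_of_one_lt (Real.pi / |θ m - θ m'|) (by norm_num : (1 : ℝ) < 2)
    have h1 := θ_diff m m' h k
    have h2 : |θ (m + k) - θ (m' + k)| ≤ Real.pi := by
      rw [abs_le]
      constructor <;> linarith [θ_nonneg (m + k), θ_le (m + k), θ_nonneg (m' + k), θ_le (m' + k)]
    rw [h1] at h2
    rw [div_lt_iff₀ hpos] at hk
    linarith
  have : (w m : ℝ) = w m' := by
    have := cos_θ m
    rw [hθ, cos_θ m'] at this
    linarith
  exact_mod_cast this

lemma not_eventually_periodic (M P : ℕ) (hP : 0 < P)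
    (h : ∀ n, M ≤ n → (0 ≤ w n ↔ 0 ≤ w (n + P))) : False := by
  have := w_eq_of_itinerary M (M + P) (fun k => by
    have := h (M + k) (by omega)
    rw [this, show M + k + P = M + P + k by ring])
  exact w_inj_lt (by omega) this

/-- A finite union of arithmetic progressions is eventually periodic. -/
lemma eventually_periodic_of_union (T : Finset (ℕ × ℕ)) (S : Set ℕ)
    (hS : S = ⋃ t ∈ T, {n : ℕ | ∃ k : ℕ, n = t.1 + k * t.2}) :
    ∃ M P : ℕ, 0 < P ∧ ∀ n, M ≤ n → (n ∈ S ↔ n + P ∈ S) := by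
  classical
  refine ⟨(T.sup Prod.fst) + 1, ∏ t ∈ T.filter (fun t => t.2 ≠ 0), t.2, ?_, ?_⟩
  · apply Finset.prod_pos
    intro t ht
    exact Nat.pos_of_ne_zero (Finset.mem_filter.mp ht).2
  · intro n hn
    have hdvd : ∀ t ∈ T, t.2 ≠ 0 → t.2 ∣ ∏ t ∈ T.filter (fun t => t.2 ≠ 0), t.2 := by
      intro t ht h0
      exact Finset.dvd_prod_of_mem _ (Finset.mem_filter.mpr ⟨ht, h0⟩)
    set P := ∏ t ∈ T.filter (fun t => t.2 ≠ 0), t.2 with hPdef
    have hle : ∀ t ∈ T, t.1 < n := by
      intro t ht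
      have := Finset.le_sup (f := Prod.fst) ht
      omega
    subst hS
    simp only [Set.mem_iUnion, Set.mem_ofPred_eq]
    constructor
    · rintro ⟨t, ht, k, hk⟩
      have h1 := hle t ht
      have h0 : t.2 ≠ 0 := by
        intro h0; rw [h0] at hk; omega
      obtain ⟨c, hc⟩ := hdvd t ht h0
      exact ⟨t, ht, k + c, by rw [hk, hc]; ring⟩
    · rintro ⟨t, ht, k, hk⟩
      have h1 := hle t ht
      have h0 : t.2 ≠ 0 := by
        intro h0; rw [h0] at hk; omega
      obtain ⟨c, hc⟩ := hdvd t ht h0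
      have hck : c ≤ k := by
        by_contra hlt
        push Not at hlt
        have : k * t.2 < t.2 * c := by
          rw [mul_comm]
          exact Nat.mul_lt_mul_of_pos_left hlt (Nat.pos_of_ne_zero h0)
        omega
      refine ⟨t, ht, k - c, ?_⟩
      have : (k - c) * t.2 = k * t.2 - c * t.2 := Nat.sub_mul _ _ _
      rw [this]
      have h4 : c * t.2 = P := by rw [hc]; ring
      omega

/-! ### Preliminaries -/

lemma eval_smul_homog {σ R : Type} [CommRing R] (P : MvPolynomial σ R) {e : ℕ}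
    (h : P.IsHomogeneous e) (c : R) (v : σ → R) :
    eval (fun i => c * v i) P = c ^ e * eval v P := by
  rw [eval_eq, eval_eq, Finset.mul_sum]
  apply Finset.sum_congr rfl
  intro d hd
  have hdeg : d.degree = e := by
    rw [Finsupp.degree_eq_weight_one]
    exact h (mem_support_iff.mp hd)
  have : ∏ i ∈ d.support, (c * v i) ^ d i = c ^ e * ∏ i ∈ d.support, v i ^ d i := by
    simp_rw [mul_pow]
    rw [Finset.prod_mul_distrib, Finset.prod_pow_eq_pow_sum]
    congr 2
  rw [this]; ring

section coords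

/-- index of the coordinate `x_j` -/
def xi (j : Fin 5) : Fin (9 + 1) := ⟨j.val, by omega⟩
/-- index of the coordinate `y_j` -/
def yi (j : Fin 5) : Fin (9 + 1) := ⟨5 + j.val, by omega⟩

/-- The equations of the variety -/
def Eqs {R : Type} [CommRing R] (z : Fin (9 + 1) → R) : Prop :=
  (∀ j k : Fin 5, z (xi j) * z (yi k) = z (xi k) * z (yi j)) ∧
  z (xi 0) * z (yi 0) = z (xi 1) ^ 2 + z (xi 2) ^ 2 + z (xi 3) ^ 2 + z (xi 4) ^ 2 ∧
  z (yi 0) ^ 2 = z (xi 1) * z (yi 1) + z (xi 2) * z (yi 2) + z (xi 3) * z (yi 3)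
    + z (xi 4) * z (yi 4)

/-- The set of defining polynomials -/
def defPolys : Set (MvPolynomial (Fin (9 + 1)) ℚ) :=
  {P | (∃ j k : Fin 5, P = X (xi j) * X (yi k) - X (xi k) * X (yi j)) ∨
    P = X (xi 0) * X (yi 0) - (X (xi 1) ^ 2 + X (xi 2) ^ 2 + X (xi 3) ^ 2 + X (xi 4) ^ 2) ∨
    P = X (yi 0) ^ 2 - (X (xi 1) * X (yi 1) + X (xi 2) * X (yi 2) + X (xi 3) * X (yi 3)
      + X (xi 4) * X (yi 4))}

lemma mem_defPolys_iff {A : Type} [CommRing A] [Algebra ℚ A] (z : Fin (9 + 1) → A) :
    (∀ P ∈ defPolys, aeval z P = 0) ↔ Eqs z := by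
  constructor
  · intro h
    refine ⟨fun j k => ?_, ?_, ?_⟩
    · have := h _ (Or.inl ⟨j, k, rfl⟩)
      simpa [sub_eq_zero] using this
    · have := h _ (Or.inr (Or.inl rfl))
      simpa [sub_eq_zero] using this
    · have := h _ (Or.inr (Or.inr rfl))
      simpa [sub_eq_zero] using this
  · rintro ⟨h1, h2, h3⟩ P (⟨j, k, rfl⟩ | rfl | rfl)
    · simp [h1 j k]
    · simp [h2]
    · simp [h3]

lemma homog_defPolys : ∀ P ∈ defPolys, ∃ e : ℕ, P.IsHomogeneous e := by
  have hX2 : ∀ i : Fin (9 + 1), ((X i : MvPolynomial (Fin (9 + 1)) ℚ) ^ 2).IsHomogeneous 2 :=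
    fun i => isHomogeneous_X_pow i 2
  have hXX : ∀ i j : Fin (9 + 1),
      ((X i : MvPolynomial (Fin (9 + 1)) ℚ) * X j).IsHomogeneous 2 :=
    fun i j => (isHomogeneous_X ℚ i).mul (isHomogeneous_X ℚ j)
  rintro P (⟨j, k, rfl⟩ | rfl | rfl)
  · exact ⟨2, (hXX _ _).sub (hXX _ _)⟩
  · exact ⟨2, (hXX _ _).sub ((((hX2 _).add (hX2 _)).add (hX2 _)).add (hX2 _))⟩
  · exact ⟨2, (hX2 _).sub ((((hXX _ _).add (hXX _ _)).add (hXX _ _)).add (hXX _ _))⟩

lemma Eqs_smul {F : Type} [Field F] {c : F} (hc : c ≠ 0) (z : Fin (9 + 1) → F) :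
    Eqs (c • z) ↔ Eqs z := by
  have hc2 : c ^ 2 ≠ 0 := pow_ne_zero 2 hc
  unfold Eqs
  simp only [Pi.smul_apply, smul_eq_mul]
  constructor
  · rintro ⟨h1, h2, h3⟩
    refine ⟨fun j k => ?_, ?_, ?_⟩
    · apply mul_left_cancel₀ hc2
      linear_combination h1 j k
    · apply mul_left_cancel₀ hc2
      linear_combination h2
    · apply mul_left_cancel₀ hc2
      linear_combination h3
  · rintro ⟨h1, h2, h3⟩
    refine ⟨fun j k => ?_, ?_, ?_⟩
    · linear_combination c ^ 2 * h1 j k
    · linear_combination c ^ 2 * h2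
    · linear_combination c ^ 2 * h3

/-- assemble a vector of `R^10` from `x, y ∈ R^5` -/
def mkv {R : Type} (x y : Fin 5 → R) : Fin (9 + 1) → R :=
  fun i => if h : i.val < 5 then x ⟨i.val, h⟩ else y ⟨i.val - 5, by omega⟩

@[simp] lemma mkv_xi {R : Type} (x y : Fin 5 → R) (j : Fin 5) : mkv x y (xi j) = x j := by
  simp [mkv, xi]

@[simp] lemma mkv_yi {R : Type} (x y : Fin 5 → R) (j : Fin 5) : mkv x y (yi j) = y j := by
  simp [mkv, yi]

lemma eq_mkv {R : Type} (z : Fin (9 + 1) → R) :
    z = mkv (fun j => z (xi j)) (fun j => z (yi j)) := by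
  funext i
  unfold mkv xi yi
  split_ifs with h
  · rfl
  · congr 1
    apply Fin.ext
    simp
    omega

lemma mkv_ext {R : Type} {z z' : Fin (9 + 1) → R} (hx : ∀ j, z (xi j) = z' (xi j))
    (hy : ∀ j, z (yi j) = z' (yi j)) : z = z' := by
  rw [eq_mkv z, eq_mkv z']
  simp only [hx, hy]

lemma index_cases (i : Fin (9 + 1)) : (∃ j, i = xi j) ∨ (∃ j, i = yi j) := by
  by_cases h : i.val < 5
  · exact Or.inl ⟨⟨i.val, h⟩, rfl⟩
  · refine Or.inr ⟨⟨i.val - 5, by omega⟩, ?_⟩
    apply Fin.ext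
    simp [yi]
    omega

/-- the sum of four squares -/
def Q4 {R : Type} [CommRing R] (v : Fin 5 → R) : R := v 1 ^ 2 + v 2 ^ 2 + v 3 ^ 2 + v 4 ^ 2

/-- the dense parametrisation -/
def phi {R : Type} [CommRing R] (v : Fin 5 → R) : Fin (9 + 1) → R :=
  mkv (fun j => v 0 ^ 2 * v j) (fun j => Q4 v * v j)

lemma Eqs_phi {R : Type} [CommRing R] (v : Fin 5 → R) : Eqs (phi v) := by
  refine ⟨fun j k => ?_, ?_, ?_⟩
  · simp only [phi, mkv_xi, mkv_yi]; ring
  · simp only [phi, mkv_xi, mkv_yi, Q4]; ring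
  · simp only [phi, mkv_xi, mkv_yi, Q4]; ring

/-- The variety `Z`. -/
def Z : Set (GeomPt ℚ 9) := {p | ∀ P ∈ defPolys, aeval p.rep P = 0}

lemma mem_Z_iff (p : GeomPt ℚ 9) : p ∈ Z ↔ Eqs p.rep := mem_defPolys_iff p.rep

lemma mk_mem_Z_iff (v : Fin (9 + 1) → AlgebraicClosure ℚ) (hv : v ≠ 0) :
    Projectivization.mk (AlgebraicClosure ℚ) v hv ∈ Z ↔ Eqs v := by
  rw [mem_Z_iff]
  obtain ⟨a, ha⟩ := Projectivization.exists_smul_eq_mk_rep (AlgebraicClosure ℚ) v hv
  rw [← ha]
  exact Eqs_smul a.ne_zero v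

lemma eval_mk_rep_eq_zero_iff {e : ℕ} (P : MvPolynomial (Fin (9 + 1)) (AlgebraicClosure ℚ))
    (hP : P.IsHomogeneous e) (v : Fin (9 + 1) → AlgebraicClosure ℚ) (hv : v ≠ 0) :
    eval (Projectivization.mk (AlgebraicClosure ℚ) v hv).rep P = 0 ↔ eval v P = 0 := by
  obtain ⟨a, ha⟩ := Projectivization.exists_smul_eq_mk_rep (AlgebraicClosure ℚ) v hv
  rw [← ha]
  have : (a • v : Fin (9 + 1) → AlgebraicClosure ℚ) = fun i => (a : AlgebraicClosure ℚ) * v i := by
    funext i; rfl
  rw [this, eval_smul_homog P hP]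
  simp [a.ne_zero]

/-- limit argument -/
lemma limit_lemma {L : Type} [Field L] [IsAlgClosed L] [CharZero L] {e : ℕ}
    (P : MvPolynomial (Fin (9 + 1)) L) (hP : P.IsHomogeneous e)
    (h : ∀ v : Fin 5 → L, eval (phi v) P = 0)
    (v : Fin 5 → L) (hv : v ≠ 0) (h0 : v 0 = 0) (hQ : Q4 v = 0) (u0 u1 : L) :
    eval (mkv (fun j => u0 * v j) (fun j => u1 * v j)) P = 0 := by
  obtain ⟨τ, hτ⟩ := IsAlgClosed.exists_pow_nat_eq u0 (n := 2) (by norm_num)
  obtain ⟨v1, hv10, hB⟩ : ∃ v1 : Fin 5 → L, v1 0 = 0 ∧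
      v 1 * v1 1 + v 2 * v1 2 + v 3 * v1 3 + v 4 * v1 4 = 1 := by
    have : ∃ j : Fin 5, v j ≠ 0 := by
      by_contra hcon
      push Not at hcon
      exact hv (funext hcon)
    obtain ⟨j, hj⟩ := this
    have hj0 : j ≠ 0 := by rintro rfl; exact hj h0
    refine ⟨fun k => if k = j then (v j)⁻¹ else 0, by simp [hj0.symm], ?_⟩
    have hj' : j = 1 ∨ j = 2 ∨ j = 3 ∨ j = 4 := by
      revert hj0; clear hj; revert j; decide
    beta_reduce
    rcases hj' with rfl | rfl | rfl | rfl
    · rw [if_pos rfl, if_neg (by decide), if_neg (by decide), if_neg (by decide),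
        mul_inv_cancel₀ hj]; ring
    · rw [if_pos rfl, if_neg (by decide), if_neg (by decide), if_neg (by decide),
        mul_inv_cancel₀ hj]; ring
    · rw [if_pos rfl, if_neg (by decide), if_neg (by decide), if_neg (by decide),
        mul_inv_cancel₀ hj]; ring
    · rw [if_pos rfl, if_neg (by decide), if_neg (by decide), if_neg (by decide),
        mul_inv_cancel₀ hj]; ring
  set lam : L := u1 / 2 with hlam
  -- the polynomial path
  let path : Fin 5 → Polynomial L := fun j =>
    if j = 0 then Polynomial.C τ * Polynomial.X else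
      Polynomial.C (v j) + Polynomial.C (lam * v1 j) * Polynomial.X ^ 2
  let big : Fin (9 + 1) → Polynomial L :=
    mkv (fun j => Polynomial.C u0 * path j)
      (fun j => (Polynomial.C u1 + Polynomial.C (lam ^ 2 * Q4 v1) * Polynomial.X ^ 2) * path j)
  let H : Polynomial L := aeval big P
  have hev : ∀ s : L, Polynomial.eval s H = eval (fun i => Polynomial.eval s (big i)) P := by
    intro s
    change (Polynomial.evalRingHom s) (aeval big P) = _
    rw [map_aeval]
    have hid : (Polynomial.evalRingHom s).comp (algebraMap L (Polynomial L)) = RingHom.id L := by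
      ext a
      simp
    rw [hid]
    rfl
  have hpath : ∀ s : L, ∀ j, Polynomial.eval s (path j) =
      if j = 0 then τ * s else v j + lam * v1 j * s ^ 2 := by
    intro s j
    simp only [path]
    split_ifs <;> simp
  have hzero : ∀ s : L, s ≠ 0 → Polynomial.eval s H = 0 := by
    intro s hs
    rw [hev]
    let vs : Fin 5 → L := fun j => Polynomial.eval s (path j)
    have hvs : ∀ j, vs j = if j = 0 then τ * s else v j + lam * v1 j * s ^ 2 := hpath s
    have key : phi vs = fun i => s ^ 2 * (Polynomial.eval s (big i)) := by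
      have hQs : Q4 vs = s ^ 2 * (u1 + lam ^ 2 * Q4 v1 * s ^ 2) := by
        have hQ' : v 1 ^ 2 + v 2 ^ 2 + v 3 ^ 2 + v 4 ^ 2 = 0 := hQ
        have hu1 : u1 = 2 * lam := by rw [hlam]; ring
        simp only [Q4, hvs]
        simp only [Fin.reduceEq, if_false]
        rw [hu1]
        linear_combination hQ' + 2 * lam * s ^ 2 * hB
      have h0s : vs 0 ^ 2 = s ^ 2 * u0 := by
        rw [hvs]; simp only [if_true]; rw [← hτ]; ring
      apply mkv_ext
      · intro j
        simp only [phi, mkv_xi, big]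
        rw [h0s]
        simp only [Polynomial.eval_mul, Polynomial.eval_C, vs]
        ring
      · intro j
        simp only [phi, mkv_yi, big]
        rw [hQs]
        simp only [Polynomial.eval_mul, Polynomial.eval_C, Polynomial.eval_add,
          Polynomial.eval_pow, Polynomial.eval_X, vs]
        ring
    have h1 := h vs
    rw [key, eval_smul_homog P hP] at h1
    rcases mul_eq_zero.mp h1 with h2 | h2
    · exact absurd h2 (pow_ne_zero _ (pow_ne_zero _ hs))
    · exact h2
  have hH : Polynomial.X * H = 0 := by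
    apply Polynomial.funext
    intro s
    by_cases hs : s = 0
    · simp [hs]
    · simp [hzero s hs]
  have hH0 : H = 0 := by
    rcases mul_eq_zero.mp hH with h1 | h1
    · exact absurd h1 Polynomial.X_ne_zero
    · exact h1
  have hfin := hev 0
  rw [hH0] at hfin
  simp only [Polynomial.eval_zero] at hfin
  have : (fun i => Polynomial.eval 0 (big i)) =
      mkv (fun j => u0 * v j) (fun j => u1 * v j) := by
    have hp0 : ∀ j, Polynomial.eval 0 (path j) = v j := by
      intro j
      rw [hpath]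
      split_ifs with hj
      · rw [hj, h0]; ring
      · ring
    apply mkv_ext
    · intro j
      simp only [big, mkv_xi, Polynomial.eval_mul, Polynomial.eval_C, hp0]
    · intro j
      simp only [big, mkv_yi, Polynomial.eval_mul, Polynomial.eval_C, hp0, Polynomial.eval_add,
        Polynomial.eval_pow, Polynomial.eval_X]
      ring
  rw [this] at hfin
  exact hfin.symm

lemma vanish_of_phi {L : Type} [Field L] [IsAlgClosed L] [CharZero L] {e : ℕ}
    (P : MvPolynomial (Fin (9 + 1)) L) (hP : P.IsHomogeneous e)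
    (h : ∀ v : Fin 5 → L, eval (phi v) P = 0)
    (z : Fin (9 + 1) → L) (hz : z ≠ 0) (hE : Eqs z) : eval z P = 0 := by
  obtain ⟨h1, h2, h3⟩ := hE
  have scale : ∀ c : L, c ≠ 0 → eval (fun i => c * z i) P = 0 → eval z P = 0 := by
    intro c hc h'
    rw [eval_smul_homog P hP] at h'
    rcases mul_eq_zero.mp h' with h4 | h4
    · exact absurd h4 (pow_ne_zero _ hc)
    · exact h4
  by_cases hx : ∃ j, z (xi j) ≠ 0
  · obtain ⟨j, hj⟩ := hx
    set c := z (yi j) / z (xi j) with hc
    have hy : ∀ k, z (yi k) = c * z (xi k) := by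
      intro k
      rw [hc]
      field_simp
      linear_combination h1 j k
    by_cases hx0 : z (xi 0) = 0
    · have hQ : Q4 (fun j => z (xi j)) = 0 := by
        simp only [Q4]; rw [← h2, hx0]; ring
      have := limit_lemma P hP h (fun j => z (xi j)) (fun h' => hj (congrFun h' j)) hx0 hQ 1 c
      have hz' : z = mkv (fun j => 1 * z (xi j)) (fun j => c * z (xi j)) := by
        apply mkv_ext
        · intro k; simp
        · intro k; simp [hy k]
      rw [hz']; exact this
    · apply scale (z (xi 0) ^ 2) (pow_ne_zero _ hx0)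
      have := h (fun j => z (xi j))
      have hz' : phi (fun j => z (xi j)) = fun i => z (xi 0) ^ 2 * z i := by
        apply mkv_ext
        · intro k; simp [phi]
        · intro k
          simp only [phi, mkv_yi, Q4]
          rw [← h2, hy k, hy 0]; ring
      rw [← hz']; exact this
  · push Not at hx
    have hy0 : z (yi 0) = 0 := by
      have : z (yi 0) ^ 2 = 0 := by rw [h3]; simp [hx]
      exact pow_eq_zero_iff (by norm_num) |>.mp this
    have hyne : (fun j => z (yi j)) ≠ 0 := by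
      intro h'
      apply hz
      apply mkv_ext
      · intro j; simp [hx j]
      · intro j; exact congrFun h' j
    by_cases hQ : Q4 (fun j => z (yi j)) = 0
    · have := limit_lemma P hP h (fun j => z (yi j)) hyne hy0 hQ 0 1
      have hz' : z = mkv (fun j => 0 * z (yi j)) (fun j => 1 * z (yi j)) := by
        apply mkv_ext
        · intro k; simp [hx k]
        · intro k; simp
      rw [hz']; exact this
    · apply scale _ hQ
      have := h (fun j => z (yi j))
      have hz' : phi (fun j => z (yi j)) = fun i => Q4 (fun j => z (yi j)) * z i := by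
        apply mkv_ext
        · intro k; simp [phi, hx k, hy0]
        · intro k; simp [phi]
      rw [← hz']; exact this

/-- `phi v` is nonzero when `v 0 ≠ 0` -/
lemma phi_ne_zero {L : Type} [Field L] (v : Fin 5 → L) (h : v 0 ≠ 0) : phi v ≠ 0 := by
  intro h'
  have := congrFun h' (xi 0)
  simp only [phi, mkv_xi, Pi.zero_apply] at this
  rcases mul_eq_zero.mp this with h1 | h1
  · exact h ((pow_eq_zero_iff (by norm_num)).mp h1)
  · exact h h1

/-- The parametrisation as polynomials. -/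
noncomputable def phiPoly {L : Type} [Field L] : Fin (9 + 1) → MvPolynomial (Fin 5) L :=
  phi (fun j => X j)

lemma eval_aeval_phiPoly {L : Type} [Field L] (P : MvPolynomial (Fin (9 + 1)) L)
    (v : Fin 5 → L) : eval v (aeval phiPoly P) = eval (phi v) P := by
  rw [map_aeval]
  have hid : (eval v).comp (algebraMap L (MvPolynomial (Fin 5) L)) = RingHom.id L := by
    ext a
    simp
  rw [hid]
  have : (fun i => eval v (phiPoly i)) = phi v := by
    apply mkv_ext
    · intro j
      simp [phiPoly, phi]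
    · intro j
      simp [phiPoly, phi, Q4]
  rw [this]
  rfl

lemma Z_irreducible : IsGeomIrreducible Z := by
  constructor
  · have hne : phi (fun _ => (1 : AlgebraicClosure ℚ)) ≠ 0 := phi_ne_zero _ one_ne_zero
    exact ⟨Projectivization.mk _ _ hne, (mk_mem_Z_iff _ hne).mpr (Eqs_phi _)⟩
  · rintro P Q ⟨a, hP⟩ ⟨b, hQ⟩ h
    have key : (X 0 : MvPolynomial (Fin 5) (AlgebraicClosure ℚ)) *
        (aeval phiPoly P * aeval phiPoly Q) = 0 := by
      apply MvPolynomial.funext
      intro v
      rw [map_mul, map_mul, eval_aeval_phiPoly, eval_aeval_phiPoly, eval_X, map_zero]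
      by_cases hv : v 0 = 0
      · rw [hv, zero_mul]
      · have hne := phi_ne_zero v hv
        have hmem : Projectivization.mk (AlgebraicClosure ℚ) (phi v) hne ∈ Z :=
          (mk_mem_Z_iff _ hne).mpr (Eqs_phi v)
        rcases h _ hmem with h1 | h1
        · rw [(eval_mk_rep_eq_zero_iff P hP _ hne).mp h1]; ring
        · rw [(eval_mk_rep_eq_zero_iff Q hQ _ hne).mp h1]; ring
    have hX : (X 0 : MvPolynomial (Fin 5) (AlgebraicClosure ℚ)) ≠ 0 := X_ne_zero 0
    have key2 := (mul_eq_zero.mp key).resolve_left hX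
    rcases mul_eq_zero.mp key2 with h1 | h1
    · left
      intro p hp
      apply vanish_of_phi P hP _ _ p.rep_nonzero ((mem_Z_iff p).mp hp)
      intro v
      rw [← eval_aeval_phiPoly, h1, map_zero]
    · right
      intro p hp
      apply vanish_of_phi Q hQ _ _ p.rep_nonzero ((mem_Z_iff p).mp hp)
      intro v
      rw [← eval_aeval_phiPoly, h1, map_zero]

/-- vector with `a` at coordinate `y_1` and `b` at coordinate `y_2`, zero elsewhere -/
def lvec {R : Type} [Zero R] (a b : R) : Fin (9 + 1) → R :=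
  mkv (fun _ => 0) (fun j => if j = 1 then a else if j = 2 then b else 0)

lemma Eqs_lvec {R : Type} [CommRing R] (a b : R) : Eqs (lvec a b) := by
  refine ⟨fun j k => ?_, ?_, ?_⟩ <;> simp [lvec]

lemma lvec_ne_zero {R : Type} [Zero R] {a b : R} (h : a ≠ 0 ∨ b ≠ 0) : lvec a b ≠ 0 := by
  intro h'
  rcases h with h | h
  · apply h
    have := congrFun h' (yi 1)
    simpa [lvec] using this
  · apply h
    have := congrFun h' (yi 2)
    simpa [lvec] using this

/-- Forms defining the endomorphism of `ℙ^9`. -/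
noncomputable def F : Fin (9 + 1) → MvPolynomial (Fin (9 + 1)) ℚ :=
  fun i => if i = yi 1 then X (yi 1) ^ 2 - C 2 * X (yi 2) ^ 2 else X i ^ 2

lemma F_homog (i : Fin (9 + 1)) : (F i).IsHomogeneous 2 := by
  unfold F
  split_ifs
  · apply (isHomogeneous_X_pow _ 2).sub
    have := (isHomogeneous_C (Fin (9 + 1)) (2 : ℚ)).mul (isHomogeneous_X_pow (R := ℚ) (yi 2) 2)
    simpa using this
  · exact isHomogeneous_X_pow _ 2

lemma F_value {A : Type} [CommRing A] [Algebra ℚ A] (z : Fin (9 + 1) → A) (i : Fin (9 + 1)) :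
    aeval z (F i) = if i = yi 1 then z (yi 1) ^ 2 - 2 * z (yi 2) ^ 2 else z i ^ 2 := by
  unfold F
  split_ifs
  · simp only [map_sub, map_pow, map_mul, aeval_X, map_ofNat]
  · simp

lemma F_ne_zero {L : Type} [Field L] [Algebra ℚ L] (z : Fin (9 + 1) → L) (hz : z ≠ 0) :
    (fun i => aeval z (F i)) ≠ 0 := by
  intro h
  apply hz
  have h' : ∀ i, (if i = yi 1 then z (yi 1) ^ 2 - 2 * z (yi 2) ^ 2 else z i ^ 2) = 0 := by
    intro i
    rw [← F_value]
    exact congrFun h i
  have hne : ∀ i, i ≠ yi 1 → z i = 0 := by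
    intro i hi
    have := h' i
    rw [if_neg hi] at this
    exact (pow_eq_zero_iff (by norm_num)).mp this
  funext i
  by_cases hi : i = yi 1
  · have := h' i
    rw [if_pos hi, hne (yi 2) (by decide)] at this
    rw [hi]
    have h2 : z (yi 1) ^ 2 = 0 := by linear_combination this
    exact (pow_eq_zero_iff (by norm_num)).mp h2
  · exact hne i hi

lemma valueAt_F_ne_zero (p : GeomPt ℚ 9) : valueAt F p ≠ 0 := F_ne_zero p.rep p.rep_nonzero

/-- The endomorphism of `ℙ^9`. -/
noncomputable def f (p : GeomPt ℚ 9) : GeomPt ℚ 9 :=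
  Projectivization.mk (AlgebraicClosure ℚ) (valueAt F p) (valueAt_F_ne_zero p)

lemma f_endo : IsEndomorphismOfDegree 2 f :=
  ⟨F, F_homog, fun p => ⟨valueAt_F_ne_zero p, by
    unfold f
    rw [Projectivization.submodule_mk]
    exact Submodule.mem_span_singleton_self _⟩⟩

lemma f_lvec (a b : AlgebraicClosure ℚ) (h : lvec a b ≠ 0)
    (h' : lvec (a ^ 2 - 2 * b ^ 2) (b ^ 2) ≠ 0) :
    f (Projectivization.mk (AlgebraicClosure ℚ) (lvec a b) h) =
      Projectivization.mk (AlgebraicClosure ℚ) (lvec (a ^ 2 - 2 * b ^ 2) (b ^ 2)) h' := by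
  unfold f
  rw [Projectivization.mk_eq_mk_iff']
  obtain ⟨c, hc⟩ := Projectivization.exists_smul_eq_mk_rep (AlgebraicClosure ℚ) (lvec a b) h
  refine ⟨(c : AlgebraicClosure ℚ) ^ 2, ?_⟩
  funext i
  simp only [valueAt]
  rw [← hc, F_value]
  simp only [Pi.smul_apply, smul_eq_mul, Units.smul_def]
  rcases index_cases i with ⟨j, rfl⟩ | ⟨j, rfl⟩
  · have : xi j ≠ yi 1 := by revert j; decide
    rw [if_neg this]
    simp [lvec]
  · by_cases hj : j = 1
    · subst hj
      rw [if_pos rfl]
      simp only [lvec, mkv_yi, if_true, Fin.reduceEq, if_false]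
      ring
    · have : yi j ≠ yi 1 := by revert j; decide
      rw [if_neg this]
      simp only [lvec, mkv_yi, hj, if_false]
      split_ifs <;> ring

/-- Local forms for `g`: on the chart `(x_j, y_j) ≠ (0, 0)`. -/
noncomputable def G (j : Fin 5) : Fin (9 + 1) → MvPolynomial (Fin (9 + 1)) ℚ :=
  lvec (X (yi j)) (X (xi j))

lemma G_homog (j : Fin 5) (i : Fin (9 + 1)) : (G j i).IsHomogeneous 1 := by
  unfold G
  rcases index_cases i with ⟨k, rfl⟩ | ⟨k, rfl⟩
  · simp only [lvec, mkv_xi]; exact isHomogeneous_zero _ _ _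
  · simp only [lvec, mkv_yi]
    split_ifs
    · exact isHomogeneous_X _ _
    · exact isHomogeneous_X _ _
    · exact isHomogeneous_zero _ _ _

lemma G_value {A : Type} [CommRing A] [Algebra ℚ A] (z : Fin (9 + 1) → A) (j : Fin 5) :
    (fun i => aeval z (G j i)) = lvec (z (yi j)) (z (xi j)) := by
  apply mkv_ext
  · intro k; simp [G, lvec]
  · intro k
    simp only [G, lvec, mkv_yi]
    split_ifs <;> simp

lemma exists_chart (p : GeomPt ℚ 9) : ∃ j : Fin 5, p.rep (yi j) ≠ 0 ∨ p.rep (xi j) ≠ 0 := by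
  by_contra h
  push Not at h
  apply p.rep_nonzero
  apply mkv_ext
  · intro j; simp [(h j).2]
  · intro j; simp [(h j).1]

/-- The morphism `g`. -/
noncomputable def g (p : GeomPt ℚ 9) : GeomPt ℚ 9 :=
  Projectivization.mk (AlgebraicClosure ℚ)
    (lvec (p.rep (yi (exists_chart p).choose)) (p.rep (xi (exists_chart p).choose)))
    (lvec_ne_zero (exists_chart p).choose_spec)

lemma g_mem (p : GeomPt ℚ 9) : g p ∈ Z := (mk_mem_Z_iff _ _).mpr (Eqs_lvec _ _)

/-- `g` is computed by any chart. -/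
lemma g_chart (q : GeomPt ℚ 9) (hq : q ∈ Z) (j : Fin 5) :
    lvec (q.rep (yi j)) (q.rep (xi j)) ∈ (g q).submodule := by
  obtain ⟨h1, -, -⟩ := (mem_Z_iff q).mp hq
  unfold g
  rw [Projectivization.submodule_mk, Submodule.mem_span_singleton]
  set k := (exists_chart q).choose with hk
  have hspec : q.rep (yi k) ≠ 0 ∨ q.rep (xi k) ≠ 0 := (exists_chart q).choose_spec
  rcases hspec with h | h
  · refine ⟨q.rep (yi j) / q.rep (yi k), ?_⟩
    apply mkv_ext
    · intro i; simp [lvec]
    · intro i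
      simp only [lvec, mkv_yi, Pi.smul_apply, smul_eq_mul]
      split_ifs
      · field_simp
      · field_simp
        linear_combination h1 k j
      · ring
  · refine ⟨q.rep (xi j) / q.rep (xi k), ?_⟩
    apply mkv_ext
    · intro i; simp [lvec]
    · intro i
      simp only [lvec, mkv_yi, Pi.smul_apply, smul_eq_mul]
      split_ifs
      · field_simp
        linear_combination -h1 k j
      · field_simp
      · ring

lemma g_morphism : IsMorphismOn Z g := by
  intro p _
  obtain ⟨j, hj⟩ := exists_chart p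
  refine ⟨1, G j, G_homog j, ?_, ?_⟩
  · unfold valueAt
    rw [G_value]
    exact lvec_ne_zero hj
  · intro q hq _
    unfold valueAt
    rw [G_value]
    exact g_chart q hq j

lemma Z_closed : IsClosedOver Z := ⟨defPolys, homog_defPolys, rfl⟩



/-! ### The return set -/

/-- the embedding of `ℚ` -/
noncomputable def emb : ℚ →+* AlgebraicClosure ℚ := algebraMap ℚ (AlgebraicClosure ℚ)

lemma liftVec_apply (v : Fin (9 + 1) → ℚ) (i : Fin (9 + 1)) : liftVec v i = emb (v i) := by
  unfold liftVec emb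
  congr

lemma Eqs_map (v : Fin (9 + 1) → ℚ) :
    Eqs (liftVec v) ↔ Eqs v := by
  have hinj := emb.injective
  unfold Eqs
  simp only [liftVec_apply, ← map_mul, ← map_pow, ← map_add, hinj.eq_iff]

lemma map_ne_zero_vec (v : Fin (9 + 1) → ℚ) (hv : v ≠ 0) :
    (liftVec v) ≠ 0 := by
  intro h
  apply hv
  funext i
  have := congrFun h i
  rw [liftVec_apply] at this
  simpa using this

/-- The starting point `[0:0:0:0:0:0:6/5:1:0:0]`. -/
noncomputable def α : GeomPt ℚ 9 :=
  Projectivization.mk (AlgebraicClosure ℚ) (lvec (emb (w 0)) 1)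
    (lvec_ne_zero (Or.inr one_ne_zero))

lemma α_rational : IsRationalPt α := by
  refine ⟨lvec (w 0) 1, lvec_ne_zero (Or.inr one_ne_zero), ?_⟩
  unfold α
  rw [Projectivization.submodule_mk, Submodule.mem_span_singleton]
  refine ⟨1, ?_⟩
  apply mkv_ext
  · intro j
    rw [liftVec_apply]
    simp [lvec]
  · intro j
    rw [liftVec_apply]
    simp only [lvec, mkv_yi, one_smul]
    split_ifs <;> simp

lemma iterate_α (n : ℕ) : f^[n] α =
    Projectivization.mk (AlgebraicClosure ℚ) (lvec (emb (w n)) 1)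
      (lvec_ne_zero (Or.inr one_ne_zero)) := by
  induction n with
  | zero => rfl
  | succ n ih =>
    rw [Function.iterate_succ_apply', ih]
    have hval : lvec ((emb (w n)) ^ 2
        - 2 * (1 : AlgebraicClosure ℚ) ^ 2) ((1 : AlgebraicClosure ℚ) ^ 2) =
        lvec (emb (w (n + 1))) 1 := by
      congr 1
      · simp only [w, map_sub, map_pow, map_ofNat]; ring
      · ring
    have h' : lvec ((emb (w n)) ^ 2
        - 2 * (1 : AlgebraicClosure ℚ) ^ 2) ((1 : AlgebraicClosure ℚ) ^ 2) ≠ 0 := by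
      rw [hval]; exact lvec_ne_zero (Or.inr one_ne_zero)
    rw [f_lvec _ _ _ h', Projectivization.mk_eq_mk_iff']
    exact ⟨1, by rw [one_smul]; exact hval.symm⟩

lemma sum_four_squares_of_nonneg (q : ℚ) (hq : 0 ≤ q) :
    ∃ a b c d : ℚ, a ^ 2 + b ^ 2 + c ^ 2 + d ^ 2 = q := by
  obtain ⟨a, b, c, d, h⟩ := Nat.sum_four_squares (q.num.toNat * q.den)
  have hden : (q.den : ℚ) ≠ 0 := by exact_mod_cast q.den_nz
  have hnum : ((q.num.toNat : ℕ) : ℚ) = q.num := by
    have h0 : 0 ≤ q.num := Rat.num_nonneg.mpr hq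
    exact_mod_cast Int.toNat_of_nonneg h0
  refine ⟨a / q.den, b / q.den, c / q.den, d / q.den, ?_⟩
  have h' : (a : ℚ) ^ 2 + b ^ 2 + c ^ 2 + d ^ 2 = q.num * q.den := by
    rw [← hnum]; exact_mod_cast h
  have hq' : q * q.den = q.num := Rat.mul_den_eq_num q
  field_simp
  rw [h', ← hq']
  ring

lemma returnSet_eq : returnSet f g Z α = {n | 0 ≤ w n} := by
  ext n
  unfold returnSet
  simp only [Set.mem_ofPred_eq]
  rw [iterate_α]
  constructor
  · rintro ⟨z, hz, ⟨v, hv, hvz⟩, hg⟩
    -- the rational coordinate vector satisfies the equations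
    have hvK := map_ne_zero_vec v hv
    have hmk : z = Projectivization.mk (AlgebraicClosure ℚ) _ hvK := by
      rw [← Projectivization.mk_rep z, Projectivization.mk_eq_mk_iff']
      rw [Projectivization.submodule_eq, Submodule.mem_span_singleton] at hvz
      obtain ⟨c, hc⟩ := hvz
      have hc0 : c ≠ 0 := by
        rintro rfl
        apply hvK
        rw [← hc, zero_smul]
      exact ⟨c⁻¹, by rw [← hc, smul_smul, inv_mul_cancel₀ hc0, one_smul]⟩
    have hE : Eqs v := by
      rw [← Eqs_map, ← mk_mem_Z_iff _ hvK, ← hmk]; exact hz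
    obtain ⟨h1, h2, -⟩ := hE
    rw [Projectivization.submodule_eq, Submodule.mem_span_singleton] at hvz
    obtain ⟨c, hc⟩ := hvz
    have hc0 : c ≠ 0 := by
      rintro rfl
      apply hvK
      rw [← hc, zero_smul]
    unfold g at hg
    rw [Projectivization.mk_eq_mk_iff'] at hg
    obtain ⟨a, ha⟩ := hg
    set k := (exists_chart z).choose with hk
    have e1 := congrFun ha (yi 1)
    have e2 := congrFun ha (yi 2)
    simp only [lvec, mkv_yi, Pi.smul_apply, smul_eq_mul, if_true, Fin.reduceEq, if_false] at e1 e2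
    -- e1 : a * rep y_k = w n , e2 : a * rep x_k = 1
    have c1 := congrFun hc (yi k)
    have c2 := congrFun hc (xi k)
    simp only [Pi.smul_apply, smul_eq_mul, liftVec_apply] at c1 c2
    have hxk : v (xi k) ≠ 0 := by
      intro h0
      rw [h0, map_zero] at c2
      have : z.rep (xi k) = 0 := (mul_eq_zero.mp c2).resolve_left hc0
      rw [this, mul_zero] at e2
      exact zero_ne_one e2
    have hyk : v (yi k) = w n * v (xi k) := by
      apply emb.injective
      rw [map_mul, ← c1, ← c2, ← e1]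
      linear_combination (-c * z.rep (yi k)) * e2
    have hy : ∀ j, v (yi j) = w n * v (xi j) := by
      intro j
      apply mul_left_cancel₀ hxk
      rw [h1 k j, hyk]; ring
    by_contra hneg
    push Not at hneg
    rw [hy 0] at h2
    have hx0 : v (xi 0) = 0 := by
      by_contra hne
      have : 0 < v (xi 0) ^ 2 := by positivity
      nlinarith [sq_nonneg (v (xi 1)), sq_nonneg (v (xi 2)), sq_nonneg (v (xi 3)),
        sq_nonneg (v (xi 4))]
    rw [hx0] at h2
    have hx : ∀ j, v (xi j) = 0 := by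
      have e1 : v (xi 1) ^ 2 = 0 := by
        nlinarith [sq_nonneg (v (xi 1)), sq_nonneg (v (xi 2)), sq_nonneg (v (xi 3)),
          sq_nonneg (v (xi 4))]
      have e2 : v (xi 2) ^ 2 = 0 := by
        nlinarith [sq_nonneg (v (xi 1)), sq_nonneg (v (xi 2)), sq_nonneg (v (xi 3)),
          sq_nonneg (v (xi 4))]
      have e3 : v (xi 3) ^ 2 = 0 := by
        nlinarith [sq_nonneg (v (xi 1)), sq_nonneg (v (xi 2)), sq_nonneg (v (xi 3)),
          sq_nonneg (v (xi 4))]
      have e4 : v (xi 4) ^ 2 = 0 := by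
        nlinarith [sq_nonneg (v (xi 1)), sq_nonneg (v (xi 2)), sq_nonneg (v (xi 3)),
          sq_nonneg (v (xi 4))]
      intro j
      fin_cases j
      · exact hx0
      · exact (pow_eq_zero_iff (by norm_num)).mp e1
      · exact (pow_eq_zero_iff (by norm_num)).mp e2
      · exact (pow_eq_zero_iff (by norm_num)).mp e3
      · exact (pow_eq_zero_iff (by norm_num)).mp e4
    exact hxk (hx k)
  · intro hn
    obtain ⟨a, b, c, d, habcd⟩ := sum_four_squares_of_nonneg (w n) hn
    let x : Fin 5 → ℚ := ![1, a, b, c, d]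
    let v : Fin (9 + 1) → ℚ := mkv x (fun j => w n * x j)
    have hx0 : x 0 = 1 := rfl
    have hx1 : x 1 = a := rfl
    have hx2 : x 2 = b := rfl
    have hx3 : x 3 = c := rfl
    have hx4 : x 4 = d := rfl
    have hv : v ≠ 0 := by
      intro h
      have := congrFun h (xi 0)
      simp only [v, mkv_xi, hx0, Pi.zero_apply] at this
      exact one_ne_zero this
    have hE : Eqs v := by
      refine ⟨fun j k => ?_, ?_, ?_⟩
      · simp only [v, mkv_xi, mkv_yi]; ring
      · simp only [v, mkv_xi, mkv_yi, hx0, hx1, hx2, hx3, hx4]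
        linear_combination -habcd
      · simp only [v, mkv_xi, mkv_yi, hx0, hx1, hx2, hx3, hx4]
        linear_combination -(w n) * habcd
    have hvK := map_ne_zero_vec v hv
    have hmem : Projectivization.mk (AlgebraicClosure ℚ) _ hvK ∈ Z := by
      rw [mk_mem_Z_iff, Eqs_map]; exact hE
    refine ⟨Projectivization.mk (AlgebraicClosure ℚ) _ hvK, hmem, ⟨v, hv, ?_⟩, ?_⟩
    · rw [Projectivization.submodule_mk]
      exact Submodule.mem_span_singleton_self _
    · set z := Projectivization.mk (AlgebraicClosure ℚ) _ hvK with hzdef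
      have hch := g_chart z hmem 0
      obtain ⟨e, he⟩ := Projectivization.exists_smul_eq_mk_rep (AlgebraicClosure ℚ) _ hvK
      rw [← hzdef] at he
      -- z.rep = e • v
      have hr : lvec (z.rep (yi 0)) (z.rep (xi 0)) =
          (e : AlgebraicClosure ℚ) • lvec (emb (w n)) 1 := by
        rw [← he]
        apply mkv_ext
        · intro j; simp [lvec]
        · intro j
          simp only [lvec, mkv_yi, Pi.smul_apply, smul_eq_mul, Units.smul_def, liftVec_apply, v,
            mkv_xi, hx0, mul_one, map_one]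
          split_ifs <;> ring
      rw [hr] at hch
      have hch2 : lvec (emb (w n)) 1 ∈ (g z).submodule := by
        have := (g z).submodule.smul_mem (e : AlgebraicClosure ℚ)⁻¹ hch
        rwa [smul_smul, inv_mul_cancel₀ e.ne_zero, one_smul] at this
      rw [← Projectivization.mk_rep (g z), Projectivization.mk_eq_mk_iff']
      rw [Projectivization.submodule_eq, Submodule.mem_span_singleton] at hch2
      exact hch2

/-- **Disproof.** There are an endomorphism `f` of `ℙ^N` over `ℚ` of degree `d ≥ 2` (hence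
polarizable), a rational point `α`, a geometrically irreducible closed subvariety `Z ⊆ ℙ^N` over
`ℚ` and a morphism `g : Z → Z` over `ℚ` such that `{n : f^n(α) ∈ g(Z(ℚ))}` is not a finite union
of arithmetic progressions. -/
theorem result :
    ∃ (N d : ℕ) (f g : GeomPt ℚ N → GeomPt ℚ N) (Z : Set (GeomPt ℚ N)) (α : GeomPt ℚ N),
      2 ≤ d ∧ IsEndomorphismOfDegree d f ∧ IsRationalPt α ∧
      IsClosedOver Z ∧ IsGeomIrreducible Z ∧
      (∀ p ∈ Z, g p ∈ Z) ∧ IsMorphismOn Z g ∧
      ¬ IsFiniteUnionOfAPs (returnSet f g Z α) := by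
  refine ⟨9, 2, f, g, Z, α, le_rfl, f_endo, α_rational, Z_closed, Z_irreducible,
    fun p _ => g_mem p, g_morphism, ?_⟩
  rintro ⟨T, hT⟩
  obtain ⟨M, P, hP, h⟩ := eventually_periodic_of_union T _ hT
  apply not_eventually_periodic M P hP
  intro n hn
  have := h n hn
  rw [returnSet_eq] at this
  exact this

end coords

end Pool.Agent.Results.MP_7e9602_ag.ValueSetDisproof
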